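import Pool.Agent.helper35.LinPrimes.Sieve

/-!
# Uniform upper bound for prime solutions of `a p - b q = c`
-/

namespace Pool.Agent.helper35.LinPrimes

open Finset Pool.Agent.Lib.BrunHooley

lemma log_le_of_eight {x u : ℝ} (hu : 0 < u) (h : x = u ^ 8) : Real.log x ≤ 8 * u := by
  rw [h, Real.log_pow]
  have := Real.log_le_sub_one_of_pos hu
  push_cast
  linarith

/-- **Upper bound sieve for `a p - b q = c`**, uniform in `a`, `b`, `c`. -/
theorem pairU : ∃ C₂ : ℝ, 0 < C₂ ∧ ∃ D₂ : ℕ, ∀ (a : ℕ) (c : ℤ), 0 < a → c ≠ 0 →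
    IsCoprime (a : ℤ) c →
    ∀ T ≥ (a * c.natAbs + 1) ^ D₂, ∀ b Y : ℕ, 0 < b → T ≤ Y → IsCoprime (a : ℤ) (b : ℤ) →
      IsCoprime (b : ℤ) c →
      (#(solQ a c T b Y) : ℝ) ≤ C₂ * (h (a * c.natAbs) * h b * Y / (a * Real.log T ^ 2)) := by
  classical
  obtain ⟨B, hB⟩ := interval_sieve 2
  refine ⟨64 * (B + 1) ^ 2 + 64, by positivity, 4 ^ (B + 1) + 6, ?_⟩
  intro a c ha hc hac
  set M := a * c.natAbs with hM
  have hc' : c.natAbs ≠ 0 := Int.natAbs_ne_zero.mpr hc
  have hM0 : M ≠ 0 := Nat.mul_ne_zero ha.ne' hc'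
  have hM1 : 1 ≤ M := Nat.one_le_iff_ne_zero.mpr hM0
  have haM : a ≤ M := Nat.le_mul_of_pos_right a (Nat.pos_of_ne_zero hc')
  intro T hT b Y hb hTY hab hbc
  have hT2 : 2 ≤ T := by
    have := mul_pow_le hM1 hT 2 0 (le_trans (by norm_num) (Nat.le_add_left 6 _))
    simpa using this
  have hTB : 4 ^ (B + 1) ≤ T := by
    have := mul_pow_le hM1 hT (4 ^ (B + 1)) 0 (Nat.add_le_add_left (by norm_num) _)
    simpa using this
  have hTa4 : a ^ 4 ≤ T := by
    have := mul_pow_le hM1 hT 1 4 (le_trans (by norm_num) (Nat.le_add_left 6 _))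
    rw [one_mul] at this
    exact (Nat.pow_le_pow_left (by omega) 4).trans this
  have hTa : a ≤ T := (Nat.le_self_pow (by norm_num) a).trans hTa4
  obtain ⟨r, hr1, hr2⟩ := pick_r B T hTB
  set z := Z r with hz
  have hz2 : 2 ≤ z := two_le_Z r
  have hzT : z ≤ T := (Nat.le_self_pow (by omega) z).trans hr1
  -- trivial case
  have hMb := h_pos M
  have hhb0 := h_pos b
  have hTr : (0 : ℝ) < T := by exact_mod_cast (by omega : 0 < T)
  have hYr : (T : ℝ) ≤ Y := by exact_mod_cast hTY
  have hY0 : (0 : ℝ) ≤ Y := Nat.cast_nonneg Y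
  have hlogT : 0 < Real.log T := Real.log_pos (by exact_mod_cast (by omega : 1 < T))
  have ha0 : (0 : ℝ) < a := by exact_mod_cast ha
  rcases (solQ a c T b Y).eq_empty_or_nonempty with hemp | ⟨q₀, hq₀⟩
  · rw [hemp, card_empty, Nat.cast_zero]; positivity
  -- base point
  obtain ⟨⟨hTq₀, hq₀Y⟩, hq₀p, p₀, hp₀p, hTp₀, heq₀⟩ := by
    have := hq₀
    rw [solQ, mem_filter, mem_Ioc] at this
    exact this
  set v : ℕ := q₀ % a with hv
  set n₁ : ℕ := q₀ / a with hn₁
  have hq₀e : q₀ = v + a * n₁ := (Nat.mod_add_div q₀ a).symm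
  set w : ℤ := (p₀ : ℤ) - b * n₁ with hw
  have hawbv : (a : ℤ) * w = b * v + c := by
    have : (q₀ : ℤ) = v + a * n₁ := by exact_mod_cast hq₀e
    rw [this] at heq₀
    rw [hw]
    linear_combination heq₀
  -- structure of solutions
  have hstr : ∀ q ∈ solQ a c T b Y, q % a = v ∧ T < q ∧ q ≤ Y ∧ q.Prime ∧
      ∃ p : ℕ, p.Prime ∧ T < p ∧ (p : ℤ) = w + b * (q / a : ℕ) := by
    intro q hq
    rw [solQ, mem_filter, mem_Ioc] at hq
    obtain ⟨⟨hTq, hqY⟩, hqp, p, hpp, hTp, heq⟩ := hq
    have h1 : (a : ℤ) ∣ b * (q - q₀ : ℤ) := by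
      refine ⟨(p : ℤ) - p₀, ?_⟩
      linear_combination heq₀ - heq
    have h2 : (a : ℤ) ∣ (q - q₀ : ℤ) := hab.dvd_of_dvd_mul_left h1
    have h3 : q % a = q₀ % a := ((Nat.modEq_iff_dvd).mpr h2).symm
    refine ⟨h3, hTq, hqY, hqp, p, hpp, hTp, ?_⟩
    have h4 : (q : ℤ) = v + a * (q / a : ℕ) := by
      have := Nat.mod_add_div q a
      rw [h3] at this
      exact_mod_cast this.symm
    have h5 : (a : ℤ) * p = a * (w + b * (q / a : ℕ)) := by
      rw [mul_add, hawbv]
      rw [h4] at heq
      linear_combination heq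
    exact mul_left_cancel₀ (by exact_mod_cast ha.ne') h5
  -- the sieve
  set rq : ∀ l : ℕ, ZMod l := fun l => (-(v : ZMod l)) * (a : ZMod l)⁻¹ with hrq
  set rp : ∀ l : ℕ, ZMod l := fun l => (-(w : ZMod l)) * (b : ZMod l)⁻¹ with hrp
  set C : ℕ → Finset ℕ := fun l => if l ∣ a then {(rp l).val} else
    if l = 2 ∨ l ∣ b then {(rq l).val} else {(rq l).val, (rp l).val} with hC
  have hCc : ∀ l, #(C l) ≤ 2 := by
    intro l; simp only [hC]; split_ifs
    · simp
    · simp
    · exact card_le_two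
  have hC1 : ∀ l, 1 ≤ #(C l) := by
    intro l; simp only [hC]; split_ifs
    · simp
    · simp
    · exact Finset.card_pos.mpr ⟨_, mem_insert_self _ _⟩
  have hClt : ∀ l, l.Prime → ∀ x ∈ C l, x < l := by
    intro l hl x hx
    have : NeZero l := ⟨hl.ne_zero⟩
    simp only [hC] at hx
    split_ifs at hx with h h'
    · rw [mem_singleton] at hx; rw [hx]; exact ZMod.val_lt _
    · rw [mem_singleton] at hx; rw [hx]; exact ZMod.val_lt _
    · rw [mem_insert, mem_singleton] at hx
      rcases hx with rfl | rfl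
      · exact ZMod.val_lt _
      · exact ZMod.val_lt _
  have hCl : ∀ l, l.Prime → #(C l) < l := by
    intro l hl
    rcases eq_or_ne l 2 with rfl | h2
    · have : #(C 2) = 1 := by
        simp only [hC]; split_ifs with h h'
        · simp
        · simp
        · exact absurd (Or.inl trivial) h'
      omega
    · have := hl.two_le
      exact lt_of_le_of_lt (hCc l) (by omega)
  have hs := (hB r 0 (Y / a) C hClt hCc hCl).2
  set nn : ℕ := 2 * (M * b) with hnn
  have hn0 : nn ≠ 0 := by positivity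
  have hprod := prod_pair z nn (by omega) hn0 (fun l => #(C l)) (fun l _ => hC1 l)
    (fun l hl hld => by
      have : Fact l.Prime := ⟨hl⟩
      have hl2 : ¬ l = 2 := by
        rintro rfl
        exact hld (dvd_mul_right 2 _)
      have hla : ¬ l ∣ a := fun h => hld (Dvd.dvd.mul_left ((h.mul_right _).mul_right _) _)
      have hlb : ¬ l ∣ b := fun h => hld (Dvd.dvd.mul_left (h.mul_left _) _)
      have hlc : ¬ l ∣ c.natAbs := fun h => hld (Dvd.dvd.mul_left ((h.mul_left _).mul_right _) _)
      have h1 : ¬ (l = 2 ∨ l ∣ b) := by tauto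
      have h2 : (c : ZMod l) ≠ 0 := by
        intro h
        rw [ZMod.intCast_zmod_eq_zero_iff_dvd] at h
        exact hlc (Int.natCast_dvd.mp h)
      have h3 : (b : ZMod l) ≠ 0 := by
        intro h
        rw [ZMod.natCast_eq_zero_iff] at h
        exact hlb h
      have h3a : (a : ZMod l) ≠ 0 := by
        intro h
        rw [ZMod.natCast_eq_zero_iff] at h
        exact hla h
      have h4 : (rq l).val ≠ (rp l).val := by
        intro h
        have h5 : rq l = rp l := ZMod.val_injective l h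
        simp only [hrq, hrp] at h5
        have h6 : ((a : ZMod l)) * (w : ZMod l) = b * v + c := by
          exact_mod_cast congrArg (Int.cast : ℤ → ZMod l) hawbv
        have h7 : (v : ZMod l) * b = w * a := by
          field_simp at h5
          linear_combination (-1 : ZMod l) * h5
        apply h2
        linear_combination (-1 : ZMod l) * h7 - h6
      simp only [hC, if_neg hla, if_neg h1]
      rw [card_pair h4]) hCl
  have hcount : #(solQ a c T b Y) ≤ #(sifted 0 (Y / a) z C) := by
    refine card_le_card_of_injOn (fun q => q / a) ?_ ?_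
    · intro q hq
      obtain ⟨hqm, hTq, hqY, hqp, p, hpp, hTp, hpe⟩ := hstr q hq
      rw [mem_coe, sifted, mem_filter, mem_Ioc, zero_add]
      refine ⟨⟨Nat.div_pos (by omega) ha, Nat.div_le_div_right hqY⟩, ?_⟩
      intro l hl hmem
      obtain ⟨hlz, hlp⟩ := Nat.mem_primesLE.mp hl
      have : Fact l.Prime := ⟨hlp⟩
      have : NeZero l := ⟨hlp.ne_zero⟩
      have hcast : ∀ x : ZMod l, (q / a) % l = x.val → ((q / a : ℕ) : ZMod l) = x := by
        intro x hx
        have := congrArg (fun t : ℕ => (t : ZMod l)) hx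
        simp only [ZMod.natCast_mod, ZMod.natCast_val, ZMod.cast_id', id_eq] at this
        exact this
      have hqne : (q : ZMod l) ≠ 0 := by
        intro h0
        rw [ZMod.natCast_eq_zero_iff] at h0
        have := (Nat.prime_dvd_prime_iff_eq hlp hqp).mp h0
        omega
      have hpne : (p : ZMod l) ≠ 0 := by
        intro h0
        rw [ZMod.natCast_eq_zero_iff] at h0
        have := (Nat.prime_dvd_prime_iff_eq hlp hpp).mp h0
        omega
      have hcq : (a : ZMod l) ≠ 0 → (q / a) % l ≠ (rq l).val := by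
        intro haz hx
        have h1 := hcast _ hx
        apply hqne
        have e : q = v + a * (q / a) := by
          have := Nat.mod_add_div q a
          rw [hqm] at this
          exact this.symm
        rw [e]
        push_cast
        rw [h1, hrq]
        simp only
        field_simp
        ring
      have hcp : (b : ZMod l) ≠ 0 → (q / a) % l ≠ (rp l).val := by
        intro hbz hx
        have h1 := hcast _ hx
        apply hpne
        have e : (p : ZMod l) = w + b * ((q / a : ℕ) : ZMod l) := by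
          have := congrArg (Int.cast : ℤ → ZMod l) hpe
          simpa only [Int.cast_natCast, Int.cast_add, Int.cast_mul] using this
        rw [e, h1, hrp]
        simp only
        field_simp
        ring
      simp only [hC] at hmem
      split_ifs at hmem with hla hld
      · rw [mem_singleton] at hmem
        refine hcp ?_ hmem
        intro h0
        rw [ZMod.natCast_eq_zero_iff] at h0
        have h6 := hab.isUnit_of_dvd' (by exact_mod_cast hla : (l : ℤ) ∣ a) (by exact_mod_cast h0)
        rw [Int.isUnit_iff] at h6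
        have := hlp.two_le
        omega
      · rw [mem_singleton] at hmem
        refine hcq ?_ hmem
        intro h0
        rw [ZMod.natCast_eq_zero_iff] at h0
        exact hla h0
      · rw [mem_insert, mem_singleton] at hmem
        rcases hmem with hmem | hmem
        · refine hcq ?_ hmem
          intro h0
          rw [ZMod.natCast_eq_zero_iff] at h0
          exact hla h0
        · refine hcp ?_ hmem
          intro h0
          rw [ZMod.natCast_eq_zero_iff] at h0
          exact hld (Or.inr h0)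
    · intro q hq q' hq' hqq
      have h1 := (hstr q hq).1
      have h2 := (hstr q' hq').1
      have e1 := Nat.mod_add_div q a
      have e2 := Nat.mod_add_div q' a
      simp only at hqq
      rw [← e1, ← e2, h1, h2, hqq]
  -- real estimates
  set s := Real.sqrt T with hs_def
  have hs0 : 0 < s := Real.sqrt_pos.mpr hTr
  have hs2 : s ^ 2 = T := Real.sq_sqrt hTr.le
  set u := Real.sqrt s with hu_def
  have hu0 : 0 < u := Real.sqrt_pos.mpr hs0
  have hu2 : u ^ 2 = s := Real.sq_sqrt hs0.le
  set t := Real.sqrt u with ht_def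
  have ht0 : 0 < t := Real.sqrt_pos.mpr hu0
  have ht2 : t ^ 2 = u := Real.sq_sqrt hu0.le
  have hu4 : (T : ℝ) = u ^ 4 := by rw [← hs2, ← hu2]; ring
  have ht8 : (T : ℝ) = t ^ 8 := by rw [hu4, ← ht2]; ring
  have hlogt : Real.log T ≤ 8 * t := log_le_of_eight ht0 ht8
  have hau : (a : ℝ) ≤ u := by
    have h1 : (a : ℝ) ^ 4 ≤ u ^ 4 := by rw [← hu4]; exact_mod_cast hTa4
    exact (pow_le_pow_iff_left₀ ha0.le hu0.le (by norm_num)).mp h1
  have hz1 : (1 : ℝ) ≤ z := by exact_mod_cast (by omega : 1 ≤ z)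
  have hzB : (z : ℝ) ^ B ≤ s := by
    have h1 : ((z : ℝ) ^ (B + 1)) ^ 2 ≤ s ^ 2 := by
      rw [hs2, ← pow_mul, mul_comm]
      exact_mod_cast hr1
    have h2 := (pow_le_pow_iff_left₀ (by positivity) hs0.le (by norm_num)).mp h1
    exact (pow_le_pow_right₀ hz1 (by omega)).trans h2
  have hhn : h nn ≤ 2 * (h M * h b) := by
    have h1 : h nn ≤ h 2 * h (M * b) := h_mul_le (by norm_num) (Nat.mul_ne_zero hM0 hb.ne')
    have h2 : h (M * b) ≤ h M * h b := h_mul_le hM0 hb.ne'
    have h3 : h 2 ≤ 2 := by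
      have := h_prime_pow (l := 2) (j := 1) Nat.prime_two
      simpa using this
    calc _ ≤ h 2 * h (M * b) := h1
      _ ≤ 2 * (h M * h b) := mul_le_mul h3 h2 (h_pos _).le (by norm_num)
  have hhb := one_le_h b
  have hhM := one_le_h M
  have hlz : Real.log T ≤ 4 * (B + 1) * Real.log (z + 1) := by
    have h3 : Real.log z ≤ Real.log (z + 1) := Real.log_le_log (by positivity) (by linarith)
    have h4 : 4 * ((B : ℝ) + 1) * Real.log z ≤ 4 * (B + 1) * Real.log (z + 1) := by gcongr
    linarith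
  have hl5 : 0 < Real.log ((z : ℝ) + 1) := Real.log_pos (by linarith)
  have hmain : ∏ l ∈ Nat.primesLE z, (1 - ((#(C l) : ℕ) : ℝ) / l)
      ≤ 32 * (B + 1) ^ 2 * (h M * h b) / Real.log T ^ 2 := by
    refine hprod.trans ?_
    rw [div_le_div_iff₀ (by positivity) (by positivity)]
    have h6 : Real.log T ^ 2 ≤ (4 * (B + 1) * Real.log (z + 1)) ^ 2 := pow_le_pow_left₀ hlogT.le hlz 2
    calc h nn * Real.log T ^ 2 ≤ (2 * (h M * h b)) * (4 * (B + 1) * Real.log (z + 1)) ^ 2 :=
          mul_le_mul hhn h6 (by positivity) (by positivity)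
      _ = _ := by ring
  have herr : (z : ℝ) ^ B ≤ 64 * (h M * h b * Y / (a * Real.log T ^ 2)) := by
    rw [← mul_div_assoc, le_div_iff₀ (by positivity)]
    calc (z : ℝ) ^ B * (a * Real.log T ^ 2) ≤ s * (u * (8 * t) ^ 2) := by gcongr
      _ = 64 * (T : ℝ) := by rw [hu4, ← hu2, ← ht2]; ring
      _ ≤ 64 * (Y : ℝ) := by linarith
      _ = 64 * (1 * 1 * Y) := by ring
      _ ≤ 64 * (h M * h b * Y) := by gcongr
  have hYa : ((Y / a : ℕ) : ℝ) ≤ Y / a := Nat.cast_div_le
  have hc'' : (#(solQ a c T b Y) : ℝ) ≤ #(sifted 0 (Y / a) z C) := by exact_mod_cast hcount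
  have hp0 : 0 ≤ ∏ l ∈ Nat.primesLE z, (1 - ((#(C l) : ℕ) : ℝ) / l) := by
    refine prod_nonneg fun l hl => ?_
    have hlp := (Nat.mem_primesLE.mp hl).2
    rw [sub_nonneg, div_le_one (by exact_mod_cast hlp.pos)]
    exact_mod_cast (hCl l hlp).le
  calc (#(solQ a c T b Y) : ℝ) ≤ #(sifted 0 (Y / a) z C) := hc''
    _ ≤ 2 * ((Y / a : ℕ) : ℝ) * ∏ l ∈ Nat.primesLE z, (1 - ((#(C l) : ℕ) : ℝ) / l) + (z : ℝ) ^ B := hs
    _ ≤ 2 * ((Y : ℝ) / a) * (32 * (B + 1) ^ 2 * (h M * h b) / Real.log T ^ 2)
        + 64 * (h M * h b * Y / (a * Real.log T ^ 2)) := by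
        refine add_le_add ?_ herr
        exact mul_le_mul (by linarith) hmain hp0 (by positivity)
    _ = _ := by field_simp; ring

end Pool.Agent.helper35.LinPrimes
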