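import Pool.Agent.Lib.SieveInterval
import Pool.Agent.Lib.PrimeSums

/-!
# Elementary arithmetic sums for the equation `a p - b q = c`
-/

namespace Pool.Agent.helper35.LinPrimes

open Finset

/-- `h n = ∏_{p | n} (1 - 1/p)⁻¹ = n / φ(n)`. -/
noncomputable def h (n : ℕ) : ℝ := ∏ p ∈ n.primeFactors, (1 - 1 / (p : ℝ))⁻¹

lemma one_sub_inv_pos {p : ℕ} (hp : p.Prime) : 0 < 1 - 1 / (p : ℝ) := by
  have : (2 : ℝ) ≤ p := by exact_mod_cast hp.two_le
  rw [sub_pos, div_lt_one (by linarith)]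
  linarith

lemma one_le_inv {p : ℕ} (hp : p.Prime) : 1 ≤ (1 - 1 / (p : ℝ))⁻¹ := by
  rw [one_le_inv₀ (one_sub_inv_pos hp)]
  have : (0 : ℝ) ≤ 1 / p := by positivity
  linarith

lemma one_le_h (n : ℕ) : 1 ≤ h n :=
  Finset.one_le_prod fun _ hp => one_le_inv (Nat.prime_of_mem_primeFactors hp)

lemma h_pos (n : ℕ) : 0 < h n := lt_of_lt_of_le one_pos (one_le_h n)

lemma h_mul_le {m n : ℕ} (hm : m ≠ 0) (hn : n ≠ 0) : h (m * n) ≤ h m * h n := by
  unfold h
  rw [Nat.primeFactors_mul hm hn, ← Finset.prod_union_inter]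
  have h1 : 1 ≤ ∏ p ∈ m.primeFactors ∩ n.primeFactors, (1 - 1 / (p : ℝ))⁻¹ :=
    Finset.one_le_prod fun p hp => one_le_inv (Nat.prime_of_mem_primeFactors (mem_inter.mp hp).1)
  have h2 : 0 ≤ ∏ p ∈ m.primeFactors ∪ n.primeFactors, (1 - 1 / (p : ℝ))⁻¹ := by
    refine prod_nonneg fun p hp => ?_
    have hp' : p.Prime := by
      rcases mem_union.mp hp with h | h <;> exact Nat.prime_of_mem_primeFactors h
    exact zero_le_one.trans (one_le_inv hp')
  nlinarith

lemma h_prime_pow {l j : ℕ} (hl : l.Prime) : h (l ^ j) ≤ 2 := by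
  rcases Nat.eq_zero_or_pos j with rfl | hj
  · simp [h]
  · rw [h, Nat.primeFactors_prime_pow hj.ne' hl, prod_singleton]
    have h2 : (2 : ℝ) ≤ l := by exact_mod_cast hl.two_le
    rw [inv_le_comm₀ (one_sub_inv_pos hl) (by norm_num)]
    have : 1 / (l : ℝ) ≤ 1 / 2 := one_div_le_one_div_of_le (by norm_num) h2
    linarith

lemma mul_pow_le {M D T : ℕ} (hM : 1 ≤ M) (h : (M + 1) ^ D ≤ T) (n j : ℕ) (hD : n + j ≤ D) :
    n * (M + 1) ^ j ≤ T := by
  calc n * (M + 1) ^ j ≤ (M + 1) ^ n * (M + 1) ^ j :=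
        Nat.mul_le_mul_right _ (Nat.lt_pow_self (by omega)).le
    _ = (M + 1) ^ (n + j) := (pow_add _ _ _).symm
    _ ≤ (M + 1) ^ D := Nat.pow_le_pow_right (by omega) hD
    _ ≤ T := h

/-- sieve product, one residue class outside the divisors of `d`. -/
lemma prod_bt (z d : ℕ) (hz : 1 ≤ z) (hd : d ≠ 0) (w : ℕ → ℕ) (hw : ∀ l, l.Prime → ¬ l ∣ d → 1 ≤ w l)
    (hwl : ∀ l, l.Prime → w l < l) :
    ∏ l ∈ Nat.primesLE z, (1 - (w l : ℝ) / l) ≤ h d / Real.log (z + 1) := by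
  have hlog : 0 < Real.log (z + 1) := Real.log_pos (by
    have : (1 : ℝ) ≤ z := by exact_mod_cast hz
    linarith)
  have h1 : ∀ l ∈ Nat.primesLE z, (1 - (w l : ℝ) / l)
      ≤ (1 - 1 / (l : ℝ)) * (if l ∣ d then (1 - 1 / (l : ℝ))⁻¹ else 1) := by
    intro l hl
    have hlp := (Nat.mem_primesLE.mp hl).2
    have hl0 : (0 : ℝ) < l := by exact_mod_cast hlp.pos
    split_ifs with hd
    · rw [mul_inv_cancel₀ (one_sub_inv_pos hlp).ne']
      have : 0 ≤ (w l : ℝ) / l := by positivity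
      linarith
    · rw [mul_one]
      have : 1 / (l : ℝ) ≤ w l / l :=
        div_le_div_of_nonneg_right (by exact_mod_cast hw l hlp hd) hl0.le
      linarith
  have h0 : ∀ l ∈ Nat.primesLE z, 0 ≤ (1 - (w l : ℝ) / l) := by
    intro l hl
    have hlp := (Nat.mem_primesLE.mp hl).2
    have hl0 : (0 : ℝ) < l := by exact_mod_cast hlp.pos
    rw [sub_nonneg, div_le_one hl0]
    exact_mod_cast (hwl l hlp).le
  refine (prod_le_prod h0 h1).trans ?_
  rw [prod_mul_distrib]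
  have h2 := Pool.Agent.Lib.PrimeSums.prod_one_sub_le z hz
  have h3 : ∏ l ∈ Nat.primesLE z, (if l ∣ d then (1 - 1 / (l : ℝ))⁻¹ else 1) ≤ h d := by
    rw [← prod_filter, h]
    refine Finset.prod_le_prod_of_subset_of_one_le ?_ ?_ ?_
    · intro l hl
      rw [mem_filter, Nat.mem_primesLE] at hl
      exact Nat.mem_primeFactors.mpr ⟨hl.1.2, hl.2, hd⟩
    · intro l hl
      rw [mem_filter, Nat.mem_primesLE] at hl
      exact zero_le_one.trans (one_le_inv hl.1.2)
    · intro l hl _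
      exact one_le_inv (Nat.prime_of_mem_primeFactors hl)
  have h4 : 0 ≤ ∏ l ∈ Nat.primesLE z, (if l ∣ d then (1 - 1 / (l : ℝ))⁻¹ else 1) := by
    refine prod_nonneg fun l hl => ?_
    split_ifs
    · exact zero_le_one.trans (one_le_inv (Nat.mem_primesLE.mp hl).2)
    · exact zero_le_one
  calc _ ≤ (1 / Real.log (z + 1)) * h d := mul_le_mul h2 h3 h4 (by positivity)
    _ = _ := by ring

/-- sieve product, two residue classes outside the divisors of `n`. -/
lemma prod_pair (z n : ℕ) (hz : 1 ≤ z) (hn : n ≠ 0) (w : ℕ → ℕ) (hw1 : ∀ l, l.Prime → 1 ≤ w l)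
    (hw : ∀ l, l.Prime → ¬ l ∣ n → 2 ≤ w l) (hwl : ∀ l, l.Prime → w l < l) :
    ∏ l ∈ Nat.primesLE z, (1 - (w l : ℝ) / l) ≤ h n / Real.log (z + 1) ^ 2 := by
  have hlog : 0 < Real.log (z + 1) := Real.log_pos (by
    have : (1 : ℝ) ≤ z := by exact_mod_cast hz
    linarith)
  have h1 : ∀ l ∈ Nat.primesLE z, (1 - (w l : ℝ) / l)
      ≤ (1 - 1 / (l : ℝ)) ^ 2 * (if l ∣ n then (1 - 1 / (l : ℝ))⁻¹ else 1) := by
    intro l hl
    have hlp := (Nat.mem_primesLE.mp hl).2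
    have hl0 : (0 : ℝ) < l := by exact_mod_cast hlp.pos
    split_ifs with hd
    · rw [pow_two, mul_assoc, mul_inv_cancel₀ (one_sub_inv_pos hlp).ne', mul_one]
      have : 1 / (l : ℝ) ≤ w l / l :=
        div_le_div_of_nonneg_right (by exact_mod_cast hw1 l hlp) hl0.le
      linarith
    · rw [mul_one]
      have : 2 / (l : ℝ) ≤ w l / l :=
        div_le_div_of_nonneg_right (by exact_mod_cast hw l hlp hd) hl0.le
      have e : 2 / (l : ℝ) = 2 * (1 / l) := by ring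
      nlinarith [sq_nonneg (1 / (l : ℝ))]
  have h0 : ∀ l ∈ Nat.primesLE z, 0 ≤ (1 - (w l : ℝ) / l) := by
    intro l hl
    have hlp := (Nat.mem_primesLE.mp hl).2
    have hl0 : (0 : ℝ) < l := by exact_mod_cast hlp.pos
    rw [sub_nonneg, div_le_one hl0]
    exact_mod_cast (hwl l hlp).le
  refine (prod_le_prod h0 h1).trans ?_
  rw [prod_mul_distrib, prod_pow]
  have h2 := Pool.Agent.Lib.PrimeSums.prod_one_sub_le z hz
  have h2' : 0 ≤ ∏ l ∈ Nat.primesLE z, (1 - 1 / (l : ℝ)) :=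
    prod_nonneg fun l hl => (one_sub_inv_pos (Nat.mem_primesLE.mp hl).2).le
  have h3 : ∏ l ∈ Nat.primesLE z, (if l ∣ n then (1 - 1 / (l : ℝ))⁻¹ else 1) ≤ h n := by
    rw [← prod_filter, h]
    refine Finset.prod_le_prod_of_subset_of_one_le ?_ ?_ ?_
    · intro l hl
      rw [mem_filter, Nat.mem_primesLE] at hl
      exact Nat.mem_primeFactors.mpr ⟨hl.1.2, hl.2, hn⟩
    · intro l hl
      rw [mem_filter, Nat.mem_primesLE] at hl
      exact zero_le_one.trans (one_le_inv hl.1.2)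
    · intro l hl _
      exact one_le_inv (Nat.prime_of_mem_primeFactors hl)
  have h4 : 0 ≤ ∏ l ∈ Nat.primesLE z, (if l ∣ n then (1 - 1 / (l : ℝ))⁻¹ else 1) := by
    refine prod_nonneg fun l hl => ?_
    split_ifs
    · exact zero_le_one.trans (one_le_inv (Nat.mem_primesLE.mp hl).2)
    · exact zero_le_one
  calc _ ≤ (1 / Real.log (z + 1)) ^ 2 * h n :=
        mul_le_mul (pow_le_pow_left₀ h2' h2 2) h3 h4 (by positivity)
    _ = _ := by ring

lemma sum_inv_sq_primes (n : ℕ) : ∑ l ∈ Nat.primesLE n, 1 / (l : ℝ) ^ 2 ≤ 1 := by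
  have h1 : ∀ m : ℕ, ∑ l ∈ Ico 2 (m + 2), 1 / (l : ℝ) ^ 2 ≤ 1 - 1 / ((m : ℝ) + 1) := by
    intro m
    induction m with
    | zero => simp
    | succ m ih =>
      rw [sum_Ico_succ_top (by omega)]
      have h2 : (0 : ℝ) < m + 1 := by positivity
      have h3 : (0 : ℝ) < m + 2 := by positivity
      have e : 1 / (((m + 2 : ℕ) : ℝ)) ^ 2 ≤ 1 / ((m : ℝ) + 1) - 1 / (m + 2) := by
        push_cast
        rw [div_sub_div _ _ h2.ne' h3.ne', div_le_div_iff₀ (by positivity) (by positivity)]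
        nlinarith
      push_cast at *
      have e2 : (m : ℝ) + 1 + 1 = m + 2 := by ring
      rw [e2]
      linarith
  calc ∑ l ∈ Nat.primesLE n, 1 / (l : ℝ) ^ 2 ≤ ∑ l ∈ Ico 2 (n + 2), 1 / (l : ℝ) ^ 2 := by
        refine sum_le_sum_of_subset_of_nonneg ?_ (fun _ _ _ => by positivity)
        intro l hl
        rw [Nat.mem_primesLE] at hl
        have := hl.2.two_le
        rw [mem_Ico]; omega
    _ ≤ 1 - 1 / ((n : ℝ) + 1) := h1 n
    _ ≤ 1 := by
        have : (0 : ℝ) ≤ 1 / ((n : ℝ) + 1) := by positivity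
        linarith

lemma sum_inv_le_log (n : ℕ) : ∑ b ∈ Icc 1 n, 1 / (b : ℝ) ≤ 1 + Real.log n := by
  have := harmonic_le_one_add_log n
  rw [harmonic_eq_sum_Icc] at this
  push_cast at this
  simpa [one_div] using this

lemma sum_inv_dvd_le (n m : ℕ) (hm : 0 < m) :
    ∑ b ∈ Icc 1 n with m ∣ b, 1 / (b : ℝ) ≤ (1 / m) * (1 + Real.log n) := by
  have h1 : ∑ b ∈ Icc 1 n with m ∣ b, 1 / (b : ℝ) ≤ ∑ b ∈ Icc 1 n, (1 / (m : ℝ)) * (1 / b) := by
    have e : ∑ b ∈ Icc 1 n with m ∣ b, 1 / (b : ℝ)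
        = ∑ k ∈ (Icc 1 n).filter (fun k => m * k ≤ n), (1 / (m : ℝ)) * (1 / k) := by
      symm
      refine sum_bij (fun k _ => m * k) ?_ ?_ ?_ ?_
      · intro k hk
        rw [mem_filter, mem_Icc] at hk
        rw [mem_filter, mem_Icc]
        exact ⟨⟨Nat.mul_pos hm hk.1.1, hk.2⟩, dvd_mul_right _ _⟩
      · intro k _ k' _ hkk
        exact Nat.eq_of_mul_eq_mul_left hm hkk
      · intro b hb
        rw [mem_filter, mem_Icc] at hb
        obtain ⟨⟨hb1, hb2⟩, k, rfl⟩ := hb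
        refine ⟨k, ?_, rfl⟩
        rw [mem_filter, mem_Icc]
        have hk : 0 < k := by
          rcases Nat.eq_zero_or_pos k with rfl | hk
          · simp at hb1
          · exact hk
        exact ⟨⟨hk, le_trans (Nat.le_mul_of_pos_left k hm) hb2⟩, hb2⟩
      · intro k _
        push_cast
        rw [one_div_mul_one_div]
    rw [e]
    exact sum_le_sum_of_subset_of_nonneg (filter_subset _ _) (fun _ _ _ => by positivity)
  refine h1.trans ?_
  rw [← mul_sum]
  exact mul_le_mul_of_nonneg_left (sum_inv_le_log n) (by positivity)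

lemma h_sq_le (b : ℕ) : h b ^ 2 ≤ ∑ T ∈ b.primeFactors.powerset, ∏ l ∈ T, (6 / (l : ℝ)) := by
  rw [← Finset.prod_one_add, h, ← prod_pow]
  refine prod_le_prod (fun l hl => by positivity) fun l hl => ?_
  have hlp := Nat.prime_of_mem_primeFactors hl
  have h2 : (2 : ℝ) ≤ l := by exact_mod_cast hlp.two_le
  have h0 := one_sub_inv_pos hlp
  have e : (1 - 1 / (l : ℝ)) = (l - 1) / l := by field_simp
  rw [e, inv_div, div_pow, div_le_iff₀ (by nlinarith)]
  have e2 : (1 + 6 / (l : ℝ)) * (l - 1) ^ 2 = (l + 6) * (l - 1) ^ 2 / l := by field_simp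
  rw [e2, le_div_iff₀ (by linarith)]
  nlinarith [mul_nonneg (sub_nonneg.mpr h2) (sub_nonneg.mpr h2)]

lemma sum_h_sq (n : ℕ) (hn : 1 ≤ n) :
    ∑ b ∈ Icc 1 n, h b ^ 2 / b ≤ Real.exp 6 * (1 + Real.log n) := by
  classical
  have hlog : 0 ≤ Real.log n := Real.log_nonneg (by exact_mod_cast hn)
  have h1 : ∑ b ∈ Icc 1 n, h b ^ 2 / b
      ≤ ∑ b ∈ Icc 1 n, ∑ T ∈ (Nat.primesLE n).powerset,
        if (∏ l ∈ T, l) ∣ b then (∏ l ∈ T, (6 / (l : ℝ))) * (1 / b) else 0 := by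
    refine sum_le_sum fun b hb => ?_
    rw [mem_Icc] at hb
    rw [div_eq_mul_one_div]
    calc h b ^ 2 * (1 / b) ≤ (∑ T ∈ b.primeFactors.powerset, ∏ l ∈ T, (6 / (l : ℝ))) * (1 / b) :=
          mul_le_mul_of_nonneg_right (h_sq_le b) (by positivity)
      _ = ∑ T ∈ b.primeFactors.powerset, (∏ l ∈ T, (6 / (l : ℝ))) * (1 / b) := sum_mul _ _ _
      _ ≤ ∑ T ∈ b.primeFactors.powerset,
            if (∏ l ∈ T, l) ∣ b then (∏ l ∈ T, (6 / (l : ℝ))) * (1 / b) else 0 := by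
          refine sum_le_sum fun T hT => ?_
          rw [mem_powerset] at hT
          rw [if_pos]
          refine Finset.prod_primes_dvd b (fun l hl => ?_) (fun l hl => ?_)
          · exact (Nat.prime_of_mem_primeFactors (hT hl)).prime
          · exact Nat.dvd_of_mem_primeFactors (hT hl)
      _ ≤ _ := by
          refine sum_le_sum_of_subset_of_nonneg ?_ (fun T _ _ => ?_)
          · refine powerset_mono.mpr fun l hl => ?_
            rw [Nat.mem_primesLE]
            exact ⟨(Nat.le_of_dvd (by omega) (Nat.dvd_of_mem_primeFactors hl)).trans hb.2,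
              Nat.prime_of_mem_primeFactors hl⟩
          · split_ifs
            · positivity
            · exact le_rfl
  refine h1.trans ?_
  rw [sum_comm]
  have h2 : ∀ T ∈ (Nat.primesLE n).powerset, (∑ b ∈ Icc 1 n,
      if (∏ l ∈ T, l) ∣ b then (∏ l ∈ T, (6 / (l : ℝ))) * (1 / b) else 0)
      ≤ (∏ l ∈ T, (6 / (l : ℝ) ^ 2)) * (1 + Real.log n) := by
    intro T hT
    rw [mem_powerset] at hT
    have hpos : 0 < ∏ l ∈ T, l := prod_pos fun l hl => (Nat.mem_primesLE.mp (hT hl)).2.pos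
    rw [← sum_filter, ← mul_sum]
    refine (mul_le_mul_of_nonneg_left (sum_inv_dvd_le n _ hpos)
      (prod_nonneg fun l _ => by positivity)).trans (le_of_eq ?_)
    rw [← mul_assoc]
    congr 1
    push_cast
    rw [one_div, ← prod_inv_distrib, ← prod_mul_distrib]
    refine prod_congr rfl fun l _ => ?_
    rw [pow_two, ← div_div, div_eq_mul_inv (6 / (l : ℝ))]
  refine (sum_le_sum h2).trans ?_
  rw [← sum_mul, ← Finset.prod_one_add]
  refine mul_le_mul_of_nonneg_right ?_ (by linarith)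
  calc ∏ l ∈ Nat.primesLE n, (1 + 6 / (l : ℝ) ^ 2)
      ≤ ∏ l ∈ Nat.primesLE n, Real.exp (6 * (1 / (l : ℝ) ^ 2)) := by
        refine prod_le_prod (fun l _ => by positivity) fun l _ => ?_
        have := Real.add_one_le_exp (6 * (1 / (l : ℝ) ^ 2))
        have e : 6 / (l : ℝ) ^ 2 = 6 * (1 / (l : ℝ) ^ 2) := by ring
        rw [e]; linarith
    _ = Real.exp (6 * ∑ l ∈ Nat.primesLE n, 1 / (l : ℝ) ^ 2) := by
        rw [mul_sum, Real.exp_sum]
    _ ≤ Real.exp 6 := by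
        rw [Real.exp_le_exp]
        have := sum_inv_sq_primes n
        linarith

end Pool.Agent.helper35.LinPrimes
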