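import Pool.Agent.helper35.LinPrimes.Arith

/-!
# Sieve bounds: primes in residue classes, and prime solutions of `a p - b q = c`
-/

namespace Pool.Agent.helper35.LinPrimes

open Finset Pool.Agent.Lib.BrunHooley

lemma log_le_of_sq {x u : ℝ} (hu : 0 < u) (h : x = u ^ 4) : Real.log x ≤ 4 * u := by
  rw [h, Real.log_pow]
  have := Real.log_le_sub_one_of_pos hu
  push_cast
  linarith

/-- choice of the sifting level. -/
lemma pick_r (B y : ℕ) (hy : 4 ^ (B + 1) ≤ y) :
    ∃ r, (Z r) ^ (2 * (B + 1)) ≤ y ∧ Real.log y ≤ 4 * (B + 1) * Real.log (Z r) := by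
  classical
  set P : ℕ → Prop := fun r => (Z r) ^ (2 * (B + 1)) ≤ y with hP
  have h0 : P 0 := by
    have e : Z 0 = 2 := by norm_num [Z]
    rw [hP]
    simp only [e]
    rw [pow_mul]
    exact hy
  set r := Nat.findGreatest P y with hr
  have hPr : P r := Nat.findGreatest_spec (P := P) (Nat.zero_le y) h0
  have hZr : ∀ n : ℕ, n < Z n := by
    intro n
    have h1 : n < 2 ^ n := Nat.lt_two_pow_self
    have h2 : 2 ^ n < 2 ^ 2 ^ n := Nat.lt_two_pow_self
    exact h1.trans h2
  have hnot : ¬ P (r + 1) := by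
    intro h
    have h1 : r + 1 < Z (r + 1) := hZr _
    have h2 : Z (r + 1) ≤ (Z (r + 1)) ^ (2 * (B + 1)) := Nat.le_self_pow (by omega) _
    have h3 : (Z (r + 1)) ^ (2 * (B + 1)) ≤ y := h
    exact Nat.findGreatest_is_greatest (P := P) (Nat.lt_succ_self r) (by omega) h
  refine ⟨r, hPr, ?_⟩
  have hlt : y < (Z r) ^ (4 * (B + 1)) := by
    have h1 : y < (Z (r + 1)) ^ (2 * (B + 1)) := not_le.mp hnot
    rw [Z_succ, ← pow_two, ← pow_mul] at h1
    rw [show 4 * (B + 1) = 2 * (2 * (B + 1)) by ring]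
    exact h1
  have hy0 : (0 : ℝ) < y := by
    have : 0 < 4 ^ (B + 1) := by positivity
    exact_mod_cast lt_of_lt_of_le this hy
  have h1 : Real.log y ≤ Real.log ((Z r : ℝ) ^ (4 * (B + 1))) :=
    Real.log_le_log hy0 (by exact_mod_cast hlt.le)
  rw [Real.log_pow] at h1
  push_cast at h1
  linarith

/-- **Brun-Titchmarsh type bound** for prime power moduli. -/
theorem bt : ∃ C₁ : ℝ, 0 < C₁ ∧ ∃ X₁ : ℕ, ∀ X ≥ X₁, ∀ l j p₀ : ℕ, l.Prime → (l ^ j) ^ 2 ≤ X →
    Nat.Coprime p₀ (l ^ j) →
    (#{p ∈ Nat.primesLE X | p ≡ p₀ [MOD l ^ j]} : ℝ) ≤ C₁ * X / ((l ^ j : ℕ) * Real.log X) := by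
  classical
  obtain ⟨B, hB⟩ := interval_sieve 2
  refine ⟨64 * (B + 1) + 12, by positivity, max 16 ((4 ^ (B + 1)) ^ 2), ?_⟩
  intro X hX l j p₀ hl hd hcop
  have hX16 : 16 ≤ X := (le_max_left _ _).trans hX
  have hXB : (4 ^ (B + 1)) ^ 2 ≤ X := (le_max_right _ _).trans hX
  set d := l ^ j with hddef
  have hd0 : 0 < d := pow_pos hl.pos j
  have hdr0 : (0 : ℝ) < d := by exact_mod_cast hd0
  set v := p₀ % d with hv
  set y := Nat.sqrt X with hy
  have hyB : 4 ^ (B + 1) ≤ y := Nat.le_sqrt'.mpr hXB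
  obtain ⟨r, hr1, hr2⟩ := pick_r B y hyB
  set z := Z r with hz
  have hz2 : 2 ≤ z := two_le_Z r
  set C : ℕ → Finset ℕ := fun q => if q ∣ d then ∅ else
    {((-(v : ZMod q)) * (d : ZMod q)⁻¹).val} with hC
  have hCc : ∀ q, #(C q) ≤ 1 := by
    intro q; simp only [hC]; split_ifs <;> simp
  have hClt : ∀ q, q.Prime → ∀ c ∈ C q, c < q := by
    intro q hq c hc
    have : NeZero q := ⟨hq.ne_zero⟩
    simp only [hC] at hc
    split_ifs at hc with h
    · simp at hc
    · rw [mem_singleton] at hc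
      rw [hc]; exact ZMod.val_lt _
  have hs := (hB r 0 (X / d) C hClt (fun q => (hCc q).trans (by norm_num))
    (fun q hq => lt_of_le_of_lt (hCc q) hq.one_lt)).2
  have hprod := prod_bt z d (by omega) hd0.ne' (fun q => #(C q))
    (fun q _ hqd => by simp [hC, hqd]) (fun q hq => lt_of_le_of_lt (hCc q) hq.one_lt)
  have hhd : h d ≤ 2 := h_prime_pow hl
  -- counting
  have hcount : #{p ∈ Nat.primesLE X | p ≡ p₀ [MOD d]} ≤ z + (1 + #(sifted 0 (X / d) z C)) := by
    have hsub : {p ∈ Nat.primesLE X | p ≡ p₀ [MOD d]} ⊆ Icc 1 z ∪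
        {p ∈ Nat.primesLE X | p ≡ p₀ [MOD d] ∧ z < p} := by
      intro p hp
      rw [mem_filter] at hp
      rw [mem_union, mem_Icc, mem_filter]
      have := (Nat.mem_primesLE.mp hp.1).2.pos
      rcases Nat.lt_or_ge z p with h | h
      · right; exact ⟨hp.1, hp.2, h⟩
      · left; exact ⟨this, h⟩
    have hinj : #{p ∈ Nat.primesLE X | p ≡ p₀ [MOD d] ∧ z < p}
        ≤ #(insert 0 (sifted 0 (X / d) z C)) := by
      refine card_le_card_of_injOn (fun p => p / d) ?_ ?_
      · intro p hp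
        rw [mem_coe, mem_filter, Nat.mem_primesLE] at hp
        obtain ⟨⟨hpX, hpp⟩, hpm, hzp⟩ := hp
        rw [mem_coe, mem_insert]
        rcases Nat.eq_zero_or_pos (p / d) with h0 | h0
        · left; exact h0
        · right
          rw [sifted, mem_filter, mem_Ioc]
          refine ⟨⟨h0, by rw [zero_add]; exact Nat.div_le_div_right hpX⟩, ?_⟩
          intro q hq hmem
          obtain ⟨hqz, hqp⟩ := Nat.mem_primesLE.mp hq
          have : Fact q.Prime := ⟨hqp⟩
          have : NeZero q := ⟨hqp.ne_zero⟩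
          simp only [hC] at hmem
          split_ifs at hmem with hqd
          · simp at hmem
          · rw [mem_singleton] at hmem
            have hdz : (d : ZMod q) ≠ 0 := by
              rw [Ne, ZMod.natCast_eq_zero_iff]; exact hqd
            have h1 : ((p / d : ℕ) : ZMod q) = (-(v : ZMod q)) * (d : ZMod q)⁻¹ := by
              have := congrArg (fun t : ℕ => (t : ZMod q)) hmem
              simp only [ZMod.natCast_mod, ZMod.natCast_val, ZMod.cast_id', id_eq] at this
              exact this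
            have h2 : (p : ZMod q) = 0 := by
              have e : p = v + d * (p / d) := by
                have h3 : p % d = v := by rw [hv]; exact hpm
                have := Nat.mod_add_div p d
                omega
              rw [e]
              push_cast
              rw [h1]
              field_simp
              ring
            rw [ZMod.natCast_eq_zero_iff] at h2
            have := (Nat.prime_dvd_prime_iff_eq hqp hpp).mp h2
            omega
      · intro p hp p' hp' hpp'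
        rw [mem_coe, mem_filter] at hp hp'
        simp only at hpp'
        have h1 : p % d = p' % d := hp.2.1.trans hp'.2.1.symm
        have e1 := Nat.mod_add_div p d
        have e2 := Nat.mod_add_div p' d
        rw [← e1, ← e2, h1, hpp']
    calc _ ≤ #(Icc 1 z ∪ {p ∈ Nat.primesLE X | p ≡ p₀ [MOD d] ∧ z < p}) := card_le_card hsub
      _ ≤ #(Icc 1 z) + #{p ∈ Nat.primesLE X | p ≡ p₀ [MOD d] ∧ z < p} := card_union_le _ _
      _ ≤ z + #(insert 0 (sifted 0 (X / d) z C)) := by
          rw [Nat.card_Icc]; gcongr; omega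
      _ ≤ z + (1 + #(sifted 0 (X / d) z C)) := by
          gcongr
          rw [add_comm]
          exact card_insert_le _ _
  -- real estimates
  have hXr : (0 : ℝ) < X := by exact_mod_cast (by omega : 0 < X)
  have hlogX : 0 < Real.log X := Real.log_pos (by exact_mod_cast (by omega : 1 < X))
  set s := Real.sqrt X with hs_def
  have hs0 : 0 < s := Real.sqrt_pos.mpr hXr
  have hs2 : s ^ 2 = X := Real.sq_sqrt hXr.le
  set u := Real.sqrt s with hu_def
  have hu0 : 0 < u := Real.sqrt_pos.mpr hs0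
  have hu2 : u ^ 2 = s := Real.sq_sqrt hs0.le
  have hu4 : (X : ℝ) = u ^ 4 := by rw [← hs2, ← hu2]; ring
  have hlogu : Real.log X ≤ 4 * u := log_le_of_sq hu0 hu4
  have hu2' : 2 ≤ u := by
    by_contra hcon
    push Not at hcon
    have h1 : u ^ 4 < 2 ^ 4 := pow_lt_pow_left₀ hcon hu0.le (by norm_num)
    have h2 : (16 : ℝ) ≤ X := by exact_mod_cast hX16
    rw [hu4] at h2
    linarith
  have hys : (y : ℝ) ≤ s := by
    rw [hs_def]
    refine Real.le_sqrt_of_sq_le ?_
    have : y ^ 2 ≤ X := Nat.sqrt_le' X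
    exact_mod_cast this
  have hsy : s < y + 1 := by
    rw [hs_def, Real.sqrt_lt' (by positivity)]
    have : X < (y + 1) ^ 2 := Nat.lt_succ_sqrt' X
    exact_mod_cast this
  have huy : u ≤ y := by nlinarith
  have hlogy : Real.log X / 4 ≤ Real.log y := by
    have h1 : Real.log X = 4 * Real.log u := by rw [hu4, Real.log_pow]; norm_num
    have h2 : Real.log u ≤ Real.log y := Real.log_le_log hu0 huy
    linarith
  have hds : (d : ℝ) ≤ s := by
    rw [hs_def]
    refine Real.le_sqrt_of_sq_le ?_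
    exact_mod_cast hd
  have hlogz : 0 < Real.log z := Real.log_pos (by exact_mod_cast (by omega : 1 < z))
  -- `W = z^(B+1)`
  set W : ℝ := (z : ℝ) ^ (B + 1) with hW
  have hz1 : (1 : ℝ) ≤ z := by exact_mod_cast (by omega : 1 ≤ z)
  have hW1 : 1 ≤ W := one_le_pow₀ hz1
  have hWz : (z : ℝ) ≤ W := le_self_pow₀ hz1 (by omega)
  have hWzB : (z : ℝ) ^ B ≤ W := pow_le_pow_right₀ hz1 (by omega)
  have hWu : W ≤ u := by
    have h1 : W ^ 2 ≤ s := by
      rw [hW, ← pow_mul]
      have : (z : ℝ) ^ ((B + 1) * 2) ≤ y := by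
        rw [mul_comm]; exact_mod_cast hr1
      exact this.trans hys
    rw [← hu2] at h1
    exact (pow_le_pow_iff_left₀ (by positivity) hu0.le (by norm_num)).mp h1
  have hXd : ((X / d : ℕ) : ℝ) ≤ X / d := Nat.cast_div_le
  -- main term
  have hmain : 2 * ((X / d : ℕ) : ℝ) * ∏ q ∈ Nat.primesLE z, (1 - ((#(C q) : ℕ) : ℝ) / q)
      ≤ 64 * (B + 1) * (X / (d * Real.log X)) := by
    have h1 : ∏ q ∈ Nat.primesLE z, (1 - ((#(C q) : ℕ) : ℝ) / q) ≤ 32 * (B + 1) / Real.log X := by
      refine hprod.trans ?_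
      have h2 : Real.log X ≤ 16 * (B + 1) * Real.log (z + 1) := by
        have h3 : Real.log z ≤ Real.log (z + 1) := Real.log_le_log (by positivity) (by linarith)
        have h4 : 4 * ((B : ℝ) + 1) * Real.log z ≤ 4 * (B + 1) * Real.log (z + 1) := by gcongr
        linarith
      have h5 : 0 < Real.log ((z : ℝ) + 1) := Real.log_pos (by linarith)
      rw [div_le_div_iff₀ h5 hlogX]
      have h6 : h d * Real.log X ≤ 2 * (16 * (B + 1) * Real.log (z + 1)) :=
        mul_le_mul hhd h2 hlogX.le (by norm_num)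
      linarith
    calc _ ≤ 2 * ((X : ℝ) / d) * (32 * (B + 1) / Real.log X) := by
          refine mul_le_mul (by linarith) h1 ?_ (by positivity)
          refine prod_nonneg fun q hq => ?_
          have hqp := (Nat.mem_primesLE.mp hq).2
          rw [sub_nonneg, div_le_one (by exact_mod_cast hqp.pos)]
          exact_mod_cast ((hCc q).trans hqp.one_lt.le)
      _ = _ := by field_simp; ring
  have herr : (z : ℝ) + 1 + (z : ℝ) ^ B ≤ 12 * (X / (d * Real.log X)) := by
    have h1 : (z : ℝ) + 1 + (z : ℝ) ^ B ≤ 3 * u := by linarith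
    refine h1.trans ?_
    rw [← mul_div_assoc, le_div_iff₀ (by positivity)]
    calc 3 * u * (d * Real.log X) ≤ 3 * u * (s * (4 * u)) := by gcongr
      _ = 12 * X := by rw [hu4, ← hu2]; ring
  have hc : (#{p ∈ Nat.primesLE X | p ≡ p₀ [MOD d]} : ℝ) ≤ z + (1 + #(sifted 0 (X / d) z C)) := by
    exact_mod_cast hcount
  calc _ ≤ (z : ℝ) + (1 + #(sifted 0 (X / d) z C)) := hc
    _ ≤ z + (1 + (2 * ((X / d : ℕ) : ℝ) * ∏ q ∈ Nat.primesLE z, (1 - ((#(C q) : ℕ) : ℝ) / q)
          + (z : ℝ) ^ B)) := by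
        have := hs
        gcongr
    _ ≤ 64 * (B + 1) * (X / (d * Real.log X)) + 12 * (X / (d * Real.log X)) := by linarith
    _ = _ := by ring

/-- solutions counted by `q`. -/
noncomputable def solQ (a : ℕ) (c : ℤ) (T b Y : ℕ) : Finset ℕ :=
  open Classical in {q ∈ Ioc T Y | q.Prime ∧ ∃ p : ℕ, p.Prime ∧ T < p ∧ (a : ℤ) * p - b * q = c}

end Pool.Agent.helper35.LinPrimes
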